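import Pool.Agent.Lib.MP_6e9c6d_nt.Core

set_option autoImplicit false

namespace Pool.Agent.Results.MP_6e9c6d_nt.QuadraticFamilies

open Pool.Agent.Lib.MP_6e9c6d_nt

theorem result (F : IntermediateField ℚ ℂ) (hF : Module.finrank ℚ F = 2) (q N : ℕ) (hq : 0 < q) (hqN : q < N)
    (a b c : ℂ) (ha : a ∈ F) (hb : b ∈ F) (hc : c ∈ F) (ha0 : a ≠ 0) (hb0 : b ≠ 0) (hc0 : c ≠ 0)
    (hcq : Odd q ∨ ∃ γ ∈ IntermediateField.adjoin ℚ {z : ℂ | ∃ m : ℕ, 0 < m ∧ z ^ m = 1}, γ ^ 2 = c) :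
    F ≤ IntermediateField.adjoin ℚ {z : ℂ | ∃ m : ℕ, 0 < m ∧ z ^ m = 1} ∧
    {x : ℂ | x ∈ F ∧ x ≠ 0 ∧
      (∃ w ∈ IntermediateField.adjoin ℚ {z : ℂ | ∃ m : ℕ, 0 < m ∧ z ^ m = 1}, w ^ 2 = c * x) ∧
      (∃ z : ℚ, (a * x + b) ^ q = z * x ^ N) ∧
      ∀ h : Polynomial ℚ, ∃ y ∈ IntermediateField.adjoin ℚ {z : ℂ | ∃ m : ℕ, 0 < m ∧ z ^ m = 1},
        y ^ 2 = Polynomial.aeval ((a * x + b) ^ q / x ^ N) h}.Infinite :=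
  ⟨le_QA F hF, master F hF hq hqN ha hb hc ha0 hb0 hc0 hcq⟩

end Pool.Agent.Results.MP_6e9c6d_nt.QuadraticFamilies
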